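import Mathlib
import Pool.Agent.H11.Iso.Defs

namespace Pool.Agent.H11.Iso

open Finset

/-- A box with side lengths `b i`. -/
noncomputable def box {d : ℕ} (b : Fin d → ℕ) : Finset (Fin d → ℤ) :=
  Fintype.piFinset (fun i => Finset.Ico (0 : ℤ) (b i))

lemma box_card {d : ℕ} (b : Fin d → ℕ) : (box b).card = ∏ i, b i := by
  simp [box, Fintype.card_piFinset]

lemma cube_card {d : ℕ} (a : Fin d → ℤ) (k : ℕ) : (cube a k).card = k ^ d := by
  simp [cube, Fintype.card_piFinset]

lemma adj_struct {d : ℕ} (x y : Fin d → ℤ) (h : ∑ i, |x i - y i| = 1) :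
    ∃ i, (y = Function.update x i (x i + 1) ∨ y = Function.update x i (x i - 1)) := by
  have h1 : ∃ i, x i ≠ y i := by
    by_contra hc
    push Not at hc
    simp [hc] at h
  obtain ⟨i, hi⟩ := h1
  have h2 : 1 ≤ |x i - y i| := Int.one_le_abs (sub_ne_zero.2 hi)
  rw [← Finset.add_sum_erase _ _ (Finset.mem_univ i)] at h
  have h3 : 0 ≤ ∑ j ∈ Finset.univ.erase i, |x j - y j| :=
    Finset.sum_nonneg (fun j _ => abs_nonneg _)
  have h4 : ∑ j ∈ Finset.univ.erase i, |x j - y j| = 0 := by omega
  rw [Finset.sum_eq_zero_iff_of_nonneg (fun j _ => abs_nonneg _)] at h4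
  have h5 : ∀ j, j ≠ i → y j = x j := fun j hj => by
    have := h4 j (by simp [hj])
    rw [abs_eq_zero] at this
    omega
  have h6 : |x i - y i| = 1 := by omega
  refine ⟨i, ?_⟩
  rcases abs_eq (by norm_num : (0 : ℤ) ≤ 1) |>.1 h6 with h7 | h7
  · right
    funext j
    by_cases hj : j = i
    · subst hj; simp; omega
    · simp [hj, h5 j hj]
  · left
    funext j
    by_cases hj : j = i
    · subst hj; simp; omega
    · simp [hj, h5 j hj]

/-- A face of a box. -/
noncomputable def face {d : ℕ} (b : Fin d → ℕ) (i : Fin d) (v : ℤ) : Finset (Fin d → ℤ) :=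
  Fintype.piFinset (Function.update (fun j => Finset.Ico (0 : ℤ) (b j)) i {v})

lemma face_card {d : ℕ} (b : Fin d → ℕ) (i : Fin d) (v : ℤ) :
    (face b i v).card * b i = ∏ j, b j := by
  rw [face, Fintype.card_piFinset, ← Finset.mul_prod_erase _ _ (Finset.mem_univ i),
    ← Finset.mul_prod_erase _ b (Finset.mem_univ i)]
  simp only [Function.update_self, Finset.card_singleton, one_mul]
  rw [mul_comm]
  congr 1
  apply Finset.prod_congr rfl
  intro j hj
  rw [Function.update_of_ne (Finset.mem_erase.1 hj).1]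
  simp

lemma boundary_le {d : ℕ} (b : Fin d → ℕ) (hb : ∀ i, 0 < b i) :
    ((edgeBoundary (box b)).ncard : ℝ) ≤ 2 * (box b).card * ∑ i, (1 : ℝ) / b i := by
  classical
  let T : Finset (Sym2 (Fin d → ℤ)) := Finset.univ.biUnion (fun i =>
    (face b i (b i - 1)).image (fun x => s(x, Function.update x i (x i + 1))) ∪
    (face b i 0).image (fun x => s(x, Function.update x i (x i - 1))))
  have hsub : edgeBoundary (box b) ⊆ (T : Set _) := by
    rintro e ⟨x, y, rfl, hxy, hx, hy⟩
    obtain ⟨i, hi⟩ := adj_struct x y hxy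
    simp only [box, Fintype.mem_piFinset, Finset.mem_Ico, not_forall] at hx hy
    obtain ⟨j, hj⟩ := hy
    simp only [T, Finset.coe_biUnion, Finset.coe_univ, Set.mem_univ, Set.iUnion_true,
      Set.mem_iUnion, Finset.mem_coe, Finset.mem_union, Finset.mem_image]
    refine ⟨i, ?_⟩
    rcases hi with rfl | rfl
    · left
      refine ⟨x, ?_, rfl⟩
      have hji : j = i := by
        by_contra hne
        rw [Function.update_of_ne hne] at hj
        exact hj (hx j)
      subst hji
      simp only [Function.update_self] at hj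
      rw [face, Fintype.mem_piFinset]
      intro l
      by_cases hl : l = j
      · subst hl
        have := hx l
        simp only [Function.update_self, Finset.mem_singleton]
        omega
      · rw [Function.update_of_ne hl]; simpa using hx l
    · right
      refine ⟨x, ?_, rfl⟩
      have hji : j = i := by
        by_contra hne
        rw [Function.update_of_ne hne] at hj
        exact hj (hx j)
      subst hji
      simp only [Function.update_self] at hj
      rw [face, Fintype.mem_piFinset]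
      intro l
      by_cases hl : l = j
      · subst hl
        have := hx l
        simp only [Function.update_self, Finset.mem_singleton]
        omega
      · rw [Function.update_of_ne hl]; simpa using hx l
  have h1 : (edgeBoundary (box b)).ncard ≤ T.card := by
    rw [← Set.ncard_coe_finset]
    exact Set.ncard_le_ncard hsub (Finset.finite_toSet _)
  have h2 : T.card ≤ ∑ i, ((face b i (b i - 1)).card + (face b i 0).card) := by
    refine Finset.card_biUnion_le.trans (Finset.sum_le_sum fun i _ => ?_)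
    exact (Finset.card_union_le _ _).trans (add_le_add Finset.card_image_le Finset.card_image_le)
  have h3 : ∀ i v, ((face b i v).card : ℝ) = (box b).card * (1 / b i) := by
    intro i v
    have h4 : (0 : ℝ) < b i := by exact_mod_cast hb i
    rw [box_card, ← face_card b i v]
    push_cast
    field_simp
  have h4 : ((edgeBoundary (box b)).ncard : ℝ) ≤
      ∑ i, (((face b i (b i - 1)).card : ℝ) + (face b i 0).card) := by
    exact_mod_cast h1.trans h2
  refine h4.trans (le_of_eq ?_)
  rw [Finset.mul_sum]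
  apply Finset.sum_congr rfl
  intro i _
  rw [h3, h3]; ring

/-- Side lengths: `m` sides `a + 1` and `m` sides `a`. -/
def sides (m a : ℕ) : Fin (m + m) → ℕ := Fin.append (fun _ : Fin m => a + 1) (fun _ : Fin m => a)

lemma sides_prod (m a : ℕ) : ∏ i, sides m a i = ((a + 1) * a) ^ m := by
  simp only [sides, Fin.prod_univ_add, Fin.append_left, Fin.append_right]
  simp [mul_pow]

lemma sides_sum (m a : ℕ) : ∑ i, (1 : ℝ) / sides m a i = m * (1 / (a + 1) + 1 / a) := by
  simp only [sides, Fin.sum_univ_add, Fin.append_left, Fin.append_right]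
  simp; ring

lemma sides_pos (m a : ℕ) (ha : 0 < a) (i : Fin (m + m)) : 0 < sides m a i := by
  refine Fin.addCases (fun j => ?_) (fun j => ?_) i
  · simp [sides]
  · simpa only [sides, Fin.append_right] using ha

lemma card_diff_le {α : Type} [DecidableEq α] (S C : Finset α) :
    (S.card : ℝ) - C.card ≤ (symmDiff S C).card ∧ (C.card : ℝ) - S.card ≤ (symmDiff S C).card := by
  have h1 : S.card ≤ (symmDiff S C).card + C.card := by
    refine le_trans (Finset.card_le_card ?_) (Finset.card_union_le _ _)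
    intro x hx
    simp only [Finset.mem_union, Finset.mem_symmDiff]
    tauto
  have h2 : C.card ≤ (symmDiff S C).card + S.card := by
    refine le_trans (Finset.card_le_card ?_) (Finset.card_union_le _ _)
    intro x hx
    simp only [Finset.mem_union, Finset.mem_symmDiff]
    tauto
  have h3 : (S.card : ℝ) ≤ (symmDiff S C).card + C.card := by exact_mod_cast h1
  have h4 : (C.card : ℝ) ≤ (symmDiff S C).card + S.card := by exact_mod_cast h2
  constructor <;> linarith

lemma far_from_cubes (m a : ℕ) (ha : 0 < a) (hma : m ≤ a) (c : Fin (m + m) → ℤ) (k : ℕ) :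
    (m : ℝ) / (2 * a) * (box (sides m a)).card ≤ (symmDiff (box (sides m a)) (cube c k)).card := by
  obtain ⟨h1, h2⟩ := card_diff_le (box (sides m a)) (cube c k)
  rw [box_card, sides_prod, cube_card] at *
  push_cast at *
  have ha' : (0 : ℝ) < a := by exact_mod_cast ha
  have hma' : (m : ℝ) ≤ a := by exact_mod_cast hma
  have hm0 : (0 : ℝ) ≤ m := by positivity
  have hB : (a : ℝ) ^ m * (1 + m / a) ≤ (a + 1) ^ m := by
    have := one_add_mul_le_pow (a := (1 / a : ℝ)) (by
      have : (0 : ℝ) ≤ 1 / a := by positivity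
      linarith) m
    have e : ((a : ℝ) + 1) ^ m = a ^ m * (1 + 1 / a) ^ m := by
      rw [← mul_pow]; congr 1; field_simp
    rw [e]
    apply mul_le_mul_of_nonneg_left _ (by positivity)
    calc 1 + (m : ℝ) / a = 1 + m * (1 / a) := by ring
      _ ≤ _ := this
  set t : ℝ := m / a with ht
  have ht0 : 0 ≤ t := by positivity
  have ht1 : t ≤ 1 := by rw [ht, div_le_one ha']; exact hma'
  have e2 : (m : ℝ) / (2 * a) = t / 2 := by rw [ht]; field_simp
  rw [e2, mul_pow]
  set X : ℝ := (a + 1) ^ m with hX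
  set Y : ℝ := a ^ m with hY
  have hX0 : 0 < X := by positivity
  have hY0 : 0 < Y := by positivity
  rw [mul_pow] at h1 h2
  rcases le_or_gt k a with hk | hk
  · have h3 : (k : ℝ) ^ (m + m) ≤ Y * Y := by
      rw [hY, ← pow_add]
      exact pow_le_pow_left₀ (by positivity) (by exact_mod_cast hk) _
    refine le_trans ?_ h1
    have h4 : Y ≤ X * (1 - t / 2) := by
      have : Y * 1 ≤ Y * ((1 + t) * (1 - t / 2)) := by
        apply mul_le_mul_of_nonneg_left _ hY0.le
        nlinarith
      have h5 : Y * (1 + t) * (1 - t / 2) ≤ X * (1 - t / 2) :=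
        mul_le_mul_of_nonneg_right hB (by linarith)
      linarith
    nlinarith
  · have h3 : X * X ≤ (k : ℝ) ^ (m + m) := by
      rw [hX, ← pow_add]
      exact pow_le_pow_left₀ (by positivity) (by exact_mod_cast hk) _
    refine le_trans ?_ h2
    have : X * (Y * (1 + t)) ≤ X * X := mul_le_mul_of_nonneg_left hB hX0.le
    have : 0 ≤ t * (X * Y) := by positivity
    nlinarith

lemma near_optimal (m a : ℕ) (hm : 0 < m) (ha : 0 < a) :
    ((edgeBoundary (box (sides m a))).ncard : ℝ) ≤
      2 * ((m + m : ℕ) : ℝ) * ((box (sides m a)).card : ℝ) ^ ((((m + m : ℕ) : ℝ) - 1) / (m + m : ℕ))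
        * (1 + 1 / (8 * (a : ℝ) ^ 2)) := by
  refine (boundary_le _ (sides_pos m a ha)).trans ?_
  rw [sides_sum, box_card, sides_prod]
  have ha' : (0 : ℝ) < a := by exact_mod_cast ha
  have hm' : (0 : ℝ) < m := by exact_mod_cast hm
  set N : ℝ := (a + 1) * a with hN
  have hN0 : 0 < N := by positivity
  have e1 : ((((a + 1) * a) ^ m : ℕ) : ℝ) = N ^ (m : ℝ) := by
    rw [Real.rpow_natCast]; push_cast; rfl
  rw [e1, ← Real.rpow_mul hN0.le]
  have e2 : (m : ℝ) * ((((m + m : ℕ) : ℝ) - 1) / (m + m : ℕ)) = m - 1 / 2 := by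
    push_cast; field_simp; ring
  rw [e2, Real.rpow_sub hN0, ← Real.sqrt_eq_rpow]
  have hs0 : 0 < √N := Real.sqrt_pos.2 hN0
  have hP : 0 < N ^ (m : ℝ) := by positivity
  have key : (1 / (a + 1) + 1 / a : ℝ) ≤ 2 / √N * (1 + 1 / (8 * (a : ℝ) ^ 2)) := by
    have e3 : (1 / (a + 1) + 1 / a : ℝ) = (2 * a + 1) / N := by rw [hN]; field_simp; ring
    have hss : √N * √N = N := Real.mul_self_sqrt hN0.le
    rw [e3, div_mul_eq_mul_div, div_le_div_iff₀ hN0 hs0]
    have h1 : (2 * a + 1 : ℝ) ≤ 2 * (1 + 1 / (8 * (a : ℝ) ^ 2)) * √N := by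
      apply le_of_sq_le_sq _ (by positivity)
      · rw [mul_pow, Real.sq_sqrt hN0.le, hN]
        have h2 : (0 : ℝ) ≤ 1 / (8 * (a : ℝ) ^ 2) := by positivity
        have h3 : 1 / (8 * (a : ℝ) ^ 2) * (8 * a ^ 2) = 1 := by field_simp
        nlinarith [mul_nonneg h2 h2, mul_nonneg (mul_nonneg h2 h2) hN0.le, mul_nonneg h2 ha'.le]
    calc (2 * a + 1 : ℝ) * √N ≤ 2 * (1 + 1 / (8 * (a : ℝ) ^ 2)) * √N * √N := by gcongr
      _ = 2 * (1 + 1 / (8 * (a : ℝ) ^ 2)) * N := by rw [mul_assoc _ (√N), hss]
  calc 2 * N ^ (m : ℝ) * (m * (1 / (a + 1) + 1 / a))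
      ≤ 2 * N ^ (m : ℝ) * (m * (2 / √N * (1 + 1 / (8 * (a : ℝ) ^ 2)))) := by gcongr
    _ = _ := by push_cast; ring

theorem main (c : ℝ) (hc : 0 < c) : ∃ d : ℕ, 1 ≤ d ∧ ∀ ε₀ : ℝ, 0 < ε₀ → ∃ ε : ℝ, 0 < ε ∧ ε < ε₀ ∧
    ∃ S : Finset (Fin d → ℤ), S.Nonempty ∧
      ((edgeBoundary S).ncard : ℝ) ≤ 2 * d * (S.card : ℝ) ^ (((d : ℝ) - 1) / d) * (1 + ε) ∧
      ∀ (a : Fin d → ℤ) (k : ℕ), 1 ≤ k →
        c * √(d * ε) * S.card < ((symmDiff S (cube a k)).card : ℝ) := by
  obtain ⟨m, hm⟩ := exists_nat_gt (c ^ 2)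
  have hm0 : (0 : ℝ) < m := lt_trans (by positivity) hm
  have hm1 : 0 < m := by exact_mod_cast hm0
  refine ⟨m + m, by omega, fun ε₀ hε₀ => ?_⟩
  obtain ⟨a0, ha0⟩ := exists_nat_gt (1 / ε₀)
  set a := a0 + m with ha
  have ha1 : 0 < a := by omega
  have ha' : (1 : ℝ) ≤ a := by exact_mod_cast ha1
  refine ⟨1 / (8 * (a : ℝ) ^ 2), by positivity, ?_, box (sides m a), ?_,
    near_optimal m a hm1 ha1, fun x k _ => ?_⟩
  · rw [div_lt_iff₀ hε₀] at ha0
    rw [div_lt_iff₀ (by positivity)]
    have : (a0 : ℝ) ≤ a := by exact_mod_cast (by omega : a0 ≤ a)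
    nlinarith [mul_pos hε₀ (show (0 : ℝ) < a by linarith)]
  · rw [← Finset.card_pos, box_card, sides_prod]; positivity
  · refine lt_of_lt_of_le ?_ (far_from_cubes m a ha1 (by omega) x k)
    have hS : (0 : ℝ) < (box (sides m a)).card := by
      rw [box_card, sides_prod]; positivity
    apply mul_lt_mul_of_pos_right _ hS
    have e : √(((m + m : ℕ) : ℝ) * (1 / (8 * (a : ℝ) ^ 2))) = √m / (2 * a) := by
      rw [Real.sqrt_eq_iff_mul_self_eq (by positivity) (by positivity), div_mul_div_comm,
        Real.mul_self_sqrt hm0.le]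
      push_cast; field_simp; ring
    rw [e, ← mul_div_assoc]
    apply div_lt_div_of_pos_right _ (by positivity)
    have h1 : c < √m := Real.lt_sqrt_of_sq_lt hm
    have h2 : √m * √m = (m : ℝ) := Real.mul_self_sqrt hm0.le
    have h3 : 0 < √(m : ℝ) := Real.sqrt_pos.2 hm0
    nlinarith

end Pool.Agent.H11.Iso
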